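import Pool.Agent.H40.Crys3

open Pool.Agent.H40.Crys in
theorem Pool.Agent.Results.MP_881be3_lc.NotHomogeneous.result :
    ∃ (n : ℕ) (G₀ : Subgroup (GL (Fin n) ℤ)) (ι : Cryst G₀ →* Isom n),
      1 ≤ n ∧ Finite G₀ ∧ Function.Injective ι ∧ Crystallographic ι.range ∧
        (∀ x, IsTranslation (ι x) ↔ x.right = 1) ∧ Irred G₀ ∧ ¬ Homogeneous (Cryst G₀) :=
  Pool.Agent.H40.Crys.counter
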